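import Mathlib

/-!
# Finiteness of the set of truncations of series commuting with `[p]`

`k` is a field of characteristic `p`, `m (x) = g (x ^ q)` with `q = p ^ n`, `g' (0) ≠ 0`.  The
series `θ` without constant term with `θ ∘ m = m ∘ θ` have finitely many truncations modulo
`x ^ r`.
-/

open PowerSeries

namespace Pool.Agent.H98.CN

variable {k : Type*} [Field k]

private theorem inner (g : k⟦X⟧) {a b : k⟦X⟧} (ha : constantCoeff a = 0)
    (hb : constantCoeff b = 0) {r : ℕ} (h : X ^ r ∣ a - b) :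
    coeff r (PowerSeries.subst a g : k⟦X⟧) - coeff r (PowerSeries.subst b g : k⟦X⟧) =
      coeff 1 g * (coeff r a - coeff r b) := by
  have hsa := PowerSeries.HasSubst.of_constantCoeff_zero' ha
  have hsb := PowerSeries.HasSubst.of_constantCoeff_zero' hb
  rw [PowerSeries.coeff_subst' hsa, PowerSeries.coeff_subst' hsb,
    ← finsum_sub_distrib (PowerSeries.coeff_subst_finite' hsa g r)
      (PowerSeries.coeff_subst_finite' hsb g r), finsum_eq_single _ 1]
  · rw [pow_one, pow_one, smul_eq_mul, smul_eq_mul, mul_sub]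
  · intro d hd
    rw [← smul_sub, ← map_sub]
    have key : coeff r (a ^ d - b ^ d) = 0 := by
      rcases Nat.eq_zero_or_pos d with rfl | hd0
      · simp
      · have h2 : 2 ≤ d := by omega
        have h3 : (X : k⟦X⟧) ^ (r + 1) ∣ a ^ d - b ^ d := by
          rw [← geom_sum₂_mul, mul_comm, pow_succ]
          refine mul_dvd_mul h ?_
          refine Finset.dvd_sum fun i hi => ?_
          rw [Finset.mem_range] at hi
          rcases Nat.eq_zero_or_pos i with rfl | hi0
          · refine Dvd.dvd.mul_left ?_ _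
            exact dvd_pow (PowerSeries.X_dvd_iff.2 hb) (by omega)
          · refine Dvd.dvd.mul_right ?_ _
            exact dvd_pow (PowerSeries.X_dvd_iff.2 ha) (by omega)
        exact PowerSeries.X_pow_dvd_iff.1 h3 r (Nat.lt_succ_self r)
    rw [key, smul_zero]

private theorem outer {g : k⟦X⟧} (hg : constantCoeff g = 0) {a b : k⟦X⟧} {r : ℕ}
    (h : X ^ r ∣ a - b) :
    coeff r (PowerSeries.subst g a : k⟦X⟧) - coeff r (PowerSeries.subst g b : k⟦X⟧) =
      coeff 1 g ^ r * (coeff r a - coeff r b) := by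
  have hsg := PowerSeries.HasSubst.of_constantCoeff_zero' hg
  obtain ⟨g₁, hg₁⟩ := PowerSeries.X_dvd_iff.2 hg
  rw [PowerSeries.coeff_subst' hsg, PowerSeries.coeff_subst' hsg,
    ← finsum_sub_distrib (PowerSeries.coeff_subst_finite' hsg a r)
      (PowerSeries.coeff_subst_finite' hsg b r), finsum_eq_single _ r]
  · have e : coeff r (g ^ r) = coeff 1 g ^ r := by
      rw [hg₁, mul_pow, PowerSeries.coeff_X_pow_mul']
      simp [PowerSeries.coeff_succ_X_mul]
    rw [e, smul_eq_mul, smul_eq_mul]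
    ring
  · intro d hd
    rw [← sub_smul]
    rcases lt_or_gt_of_ne hd with h1 | h1
    · have : coeff d a - coeff d b = 0 := by
        rw [← map_sub]
        exact PowerSeries.X_pow_dvd_iff.1 h d h1
      rw [this, zero_smul]
    · have : coeff r (g ^ d) = 0 := by
        have h3 : (X : k⟦X⟧) ^ d ∣ g ^ d := pow_dvd_pow_of_dvd (PowerSeries.X_dvd_iff.2 hg) d
        exact PowerSeries.X_pow_dvd_iff.1 h3 r h1
      rw [this, smul_zero]

/-- Series `θ` with `θ ∘ g = g ∘ θ^φ`, `φ x = x ^ q`. -/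
theorem finite_trunc {q : ℕ} (hq : 2 ≤ q) {φ : k →+* k} (hφ : ∀ x, φ x = x ^ q) {g : k⟦X⟧}
    (hg0 : constantCoeff g = 0) (hg1 : coeff 1 g ≠ 0) (S : Set k⟦X⟧)
    (hS0 : ∀ θ ∈ S, constantCoeff θ = 0)
    (hS : ∀ θ ∈ S, PowerSeries.subst g θ = PowerSeries.subst (PowerSeries.map φ θ) g) (r : ℕ) :
    ((fun θ : k⟦X⟧ => fun i : Fin r => coeff i.val θ) '' S).Finite := by
  have key : ∀ (r : ℕ) (θ θ' : k⟦X⟧), θ ∈ S → θ' ∈ S → X ^ r ∣ θ - θ' →
      coeff 1 g * (coeff r θ - coeff r θ') ^ q = coeff 1 g ^ r * (coeff r θ - coeff r θ') := by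
    intro r θ θ' hθ hθ' h
    have h0 : X ^ r ∣ PowerSeries.map φ θ - PowerSeries.map φ θ' := by
      rw [← map_sub]
      obtain ⟨t, ht⟩ := h
      rw [ht, map_mul, map_pow, PowerSeries.map_X]
      exact Dvd.intro _ rfl
    have hc : ∀ θ ∈ S, constantCoeff (PowerSeries.map φ θ) = 0 := by
      intro θ hθ
      rw [← PowerSeries.coeff_zero_eq_constantCoeff_apply, PowerSeries.coeff_map,
        PowerSeries.coeff_zero_eq_constantCoeff_apply, hS0 θ hθ, map_zero]
    have e1 := inner g (hc θ hθ) (hc θ' hθ') h0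
    have e2 := outer hg0 h
    rw [← hS θ hθ, ← hS θ' hθ', e2, PowerSeries.coeff_map, PowerSeries.coeff_map] at e1
    rw [e1, ← map_sub φ, hφ]
  have hD : ∀ r : ℕ, {d : k | coeff 1 g * d ^ q = coeff 1 g ^ r * d}.Finite := by
    intro r
    set P : Polynomial k := Polynomial.C (coeff 1 g) * Polynomial.X ^ q -
      Polynomial.C (coeff 1 g ^ r) * Polynomial.X with hP
    have hP0 : P ≠ 0 := by
      intro h0
      have := congrArg (fun z => Polynomial.coeff z q) h0
      simp only [hP, Polynomial.coeff_sub, Polynomial.coeff_C_mul, Polynomial.coeff_X_pow,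
        if_true, Polynomial.coeff_zero, Polynomial.coeff_X, if_neg (show ¬ 1 = q by omega),
        mul_one, mul_zero, sub_zero] at this
      exact hg1 this
    refine (Polynomial.finite_setOfPred_isRoot hP0).subset fun d hd => ?_
    rw [Set.mem_ofPred_eq] at hd ⊢
    rw [Polynomial.IsRoot, hP, Polynomial.eval_sub, Polynomial.eval_mul, Polynomial.eval_mul,
      Polynomial.eval_C, Polynomial.eval_C, Polynomial.eval_pow, Polynomial.eval_X, hd, sub_self]
  induction r with
  | zero => exact Set.toFinite _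
  | succ r ih =>
    have hch : ∀ t : Fin r → k, ∃ θ' : k⟦X⟧,
        t ∈ ((fun θ : k⟦X⟧ => fun i : Fin r => coeff i.val θ) '' S) →
          θ' ∈ S ∧ ∀ i : Fin r, coeff i.val θ' = t i := by
      intro t
      by_cases ht : t ∈ ((fun θ : k⟦X⟧ => fun i : Fin r => coeff i.val θ) '' S)
      · obtain ⟨θ', h1, h2⟩ := ht
        exact ⟨θ', fun _ => ⟨h1, fun i => congrFun h2 i⟩⟩
      · exact ⟨0, fun h => absurd h ht⟩
    choose R hR using hch
    refine (ih.biUnion (t := fun t => (fun d : k => (Fin.snoc t (coeff r (R t) + d) :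
      Fin (r + 1) → k)) '' {d : k | coeff 1 g * d ^ q = coeff 1 g ^ r * d})
      fun t _ => (hD r).image _).subset ?_
    rintro _ ⟨θ, hθ, rfl⟩
    rw [Set.mem_iUnion₂]
    set t : Fin r → k := fun i => coeff i.val θ with ht
    have htm : t ∈ ((fun θ : k⟦X⟧ => fun i : Fin r => coeff i.val θ) '' S) := ⟨θ, hθ, rfl⟩
    refine ⟨t, htm, coeff r θ - coeff r (R t), ?_, ?_⟩
    · obtain ⟨h1, h2⟩ := hR t htm
      refine key r θ (R t) hθ h1 ?_
      rw [PowerSeries.X_pow_dvd_iff]
      intro i hi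
      rw [map_sub, h2 ⟨i, hi⟩, ht, sub_self]
    · funext i
      refine Fin.lastCases ?_ (fun j => ?_) i
      · simp
      · simp [ht]

/-- Series commuting with `m = g (x ^ (p ^ n))`, `g' (0) ≠ 0`, in characteristic `p`. -/
theorem finite_comm (p : ℕ) [Fact p.Prime] [CharP k p] {n : ℕ} (hn : 1 ≤ n) {g m : k⟦X⟧}
    (hg0 : constantCoeff g = 0) (hg1 : coeff 1 g ≠ 0)
    (hm : m = PowerSeries.subst (X ^ p ^ n : k⟦X⟧) g) (S : Set k⟦X⟧)
    (hS0 : ∀ θ ∈ S, constantCoeff θ = 0)
    (hS : ∀ θ ∈ S, PowerSeries.subst m θ = PowerSeries.subst θ m) (r : ℕ) :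
    ((fun θ : k⟦X⟧ => fun i : Fin r => coeff i.val θ) '' S).Finite := by
  have hp : p.Prime := Fact.out
  have hq0 : p ^ n ≠ 0 := pow_ne_zero _ hp.ne_zero
  have hq : 2 ≤ p ^ n := le_trans hp.two_le (Nat.le_self_pow (by omega) p)
  have : ExpChar k p := ExpChar.prime hp
  refine finite_trunc (φ := iterateFrobenius k p n) hq (fun x => iterateFrobenius_def p n x) hg0 hg1
    S hS0 (fun θ hθ => ?_) r
  have hX : PowerSeries.HasSubst (X ^ p ^ n : k⟦X⟧) := PowerSeries.HasSubst.X_pow hq0
  have hsθ := PowerSeries.HasSubst.of_constantCoeff_zero' (hS0 θ hθ)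
  have hcφ : constantCoeff (PowerSeries.map (iterateFrobenius k p n) θ) = 0 := by
    rw [← PowerSeries.coeff_zero_eq_constantCoeff_apply, PowerSeries.coeff_map,
      PowerSeries.coeff_zero_eq_constantCoeff_apply, hS0 θ hθ, map_zero]
  have e1 : PowerSeries.subst m θ = PowerSeries.subst (X ^ p ^ n : k⟦X⟧)
      (PowerSeries.subst g θ : k⟦X⟧) := by
    rw [hm, PowerSeries.subst_comp_subst_apply (PowerSeries.HasSubst.of_constantCoeff_zero' hg0) hX]
  have e0 : θ ^ p ^ n = PowerSeries.subst (X ^ p ^ n : k⟦X⟧)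
      (PowerSeries.map (iterateFrobenius k p n) θ) := by
    rw [← PowerSeries.expand_apply (p ^ n) hq0, ← PowerSeries.map_expand]
    exact (MvPowerSeries.map_iterateFrobenius_expand p hp.ne_zero θ n).symm
  have e2 : PowerSeries.subst θ m = PowerSeries.subst (X ^ p ^ n : k⟦X⟧)
      (PowerSeries.subst (PowerSeries.map (iterateFrobenius k p n) θ) g : k⟦X⟧) := by
    rw [hm, PowerSeries.subst_comp_subst_apply hX hsθ, PowerSeries.subst_pow hsθ,
      PowerSeries.subst_X hsθ, e0,
      PowerSeries.subst_comp_subst_apply (PowerSeries.HasSubst.of_constantCoeff_zero' hcφ) hX]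
  have e3 := hS θ hθ
  rw [e1, e2] at e3
  ext i
  have e4 := congrArg (coeff (p ^ n * i)) e3
  rw [PowerSeries.coeff_subst_X_pow hq0, PowerSeries.coeff_subst_X_pow hq0,
    if_pos (Dvd.intro _ rfl), if_pos (Dvd.intro _ rfl), Nat.mul_div_cancel_left _
      (Nat.pos_of_ne_zero hq0)] at e4
  exact e4

end Pool.Agent.H98.CN
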