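import Mathlib

/-!
# A generator of the field with `p ^ n` elements inside an algebraically closed field
-/

namespace Pool.Agent.H98.CN

/-- `∑_(i < n) c_i ζ ^ i` is nonzero for integers `c_i` not all divisible by `p`. -/
theorem exists_zeta {k : Type*} [Field k] [IsAlgClosed k] (p : ℕ) [Fact p.Prime] [CharP k p]
    {n : ℕ} (hn : 1 ≤ n) : ∃ ζ : k, ζ ^ p ^ n = ζ ∧ ∀ c : Fin n → ℤ,
    (∑ i, (c i : k) * ζ ^ i.val = 0) → ∀ i, (p : ℤ) ∣ c i := by
  let _ : Algebra (ZMod p) k := ZMod.algebra k p
  have hn0 : n ≠ 0 := by omega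
  let K := GaloisField p n
  let ι : K →ₐ[ZMod p] k := IsAlgClosed.lift
  obtain ⟨z, hz⟩ := Field.exists_primitive_element (ZMod p) K
  have hdeg : (minpoly (ZMod p) z).natDegree = n := by
    rw [(Field.primitive_element_iff_minpoly_natDegree_eq (ZMod p) z).1 hz]
    exact GaloisField.finrank p hn0
  have hli : LinearIndependent (ZMod p) fun i : Fin n => z ^ (i : ℕ) := by
    have h := linearIndependent_pow (K := ZMod p) z
    rw [hdeg] at h
    exact h
  refine ⟨ι z, ?_, fun c hc i => ?_⟩
  · have : Fintype K := Fintype.ofFinite K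
    have h1 : z ^ p ^ n = z := by
      have h2 := FiniteField.pow_card z
      rwa [← Nat.card_eq_fintype_card, GaloisField.card p n hn0] at h2
    rw [← map_pow, h1]
  · have h0 : ∑ i : Fin n, ((c i : ℤ) : ZMod p) • z ^ (i : ℕ) = 0 := by
      have hinj : ∀ x y : K, ι x = ι y → x = y := fun x y h => ι.toRingHom.injective h
      refine hinj _ _ ?_
      rw [map_sum, map_zero, ← hc]
      refine Finset.sum_congr rfl fun i _ => ?_
      rw [Algebra.smul_def, map_mul, map_pow, AlgHom.commutes, map_intCast]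
    have h1 := Fintype.linearIndependent_iff.1 hli (fun i => ((c i : ℤ) : ZMod p)) h0 i
    exact (ZMod.intCast_zmod_eq_zero_iff_dvd (c i) p).1 h1

end Pool.Agent.H98.CN
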