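import Pool.Agent.H98.CN.C

/-!
# CH-ALL, chapter CURVE, module NORM (helper98): equivariant normalisation

`T` is a complete noetherian local domain over the algebraically closed field `k`, with residue
field `k`, whose only nonzero prime ideal is the maximal ideal.  Then the integral closure of `T` in
its field of fractions is `k⟦X⟧`; every automorphism of `T` extends to it, uniquely.
-/

set_option autoImplicit false

open IsLocalRing

namespace Pool.Agent.H98.CN

universe u v

variable {k : Type u} [Field k] {T : Type v} [CommRing T] [IsDomain T] [IsLocalRing T]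
  [IsNoetherianRing T] [Algebra k T]

theorem exists_norm [IsAlgClosed k] [IsAdicComplete (maximalIdeal T) T]
    (hres : ∀ x : T, ∃ c : k, x - algebraMap k T c ∈ maximalIdeal T) (hnf : ¬ IsField T)
    (h1 : ∀ P : Ideal T, P.IsPrime → P ≠ ⊥ → P = maximalIdeal T) :
    ∃ j : T →ₐ[k] PowerSeries k, Function.Injective j ∧
      (∀ x ∈ maximalIdeal T, (PowerSeries.X : PowerSeries k) ∣ j x) ∧
      (∀ g : T ≃ₐ[k] T, ∃ g' : PowerSeries k ≃ₐ[k] PowerSeries k, ∀ x, g' (j x) = j (g x)) ∧
      ∀ g₁ g₂ : PowerSeries k ≃ₐ[k] PowerSeries k, (∀ x, g₁ (j x) = g₂ (j x)) → g₁ = g₂ := by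
  classical
  obtain ⟨f, hfm, hf⟩ : ∃ f ∈ maximalIdeal T, f ≠ 0 :=
    Submodule.exists_mem_ne_zero_of_ne_bot fun h => hnf (isField_iff_maximalIdeal_eq.mpr h)
  obtain ⟨N, hN⟩ := exists_pow_le h1 hf
  -- the field of fractions and a dominating valuation ring
  let K := FractionRing T
  obtain ⟨B, hB⟩ := LocalSubring.exists_le_valuationSubring (LocalSubring.range (algebraMap T K))
  obtain ⟨hle, hloc⟩ := LocalSubring.le_def.mp hB
  have hmem : ∀ x : T, algebraMap T K x ∈ B := fun x => hle ⟨x, rfl⟩
  let _ : Algebra T B := ((algebraMap T K).codRestrict B hmem).toAlgebra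
  let _ : Algebra k B := ((algebraMap T B).comp (algebraMap k T)).toAlgebra
  have : IsScalarTower k T B := IsScalarTower.of_algebraMap_eq fun _ => rfl
  have : IsScalarTower T B K := IsScalarTower.of_algebraMap_eq fun _ => rfl
  have hinj : Function.Injective (algebraMap T B) := by
    intro x y hxy
    exact IsFractionRing.injective T K (congrArg Subtype.val hxy)
  have hfr : ∀ v : B, ∃ a b : T, b ≠ 0 ∧ algebraMap T B b * v = algebraMap T B a := by
    intro v
    obtain ⟨⟨a, b⟩, hab⟩ := IsLocalization.surj (nonZeroDivisors T) (v : K)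
    refine ⟨a, b, nonZeroDivisors.ne_zero b.2, Subtype.ext ?_⟩
    change algebraMap T K b * (v : K) = algebraMap T K a
    rw [mul_comm]
    exact hab
  have hdom : ∀ x ∈ maximalIdeal T, ¬ IsUnit (algebraMap T B x) := by
    intro x hx hu
    have h2 : IsUnit (⟨algebraMap T K x, ⟨x, rfl⟩⟩ :
        (LocalSubring.range (algebraMap T K)).toSubring) := hloc.map_nonunit _ hu
    obtain ⟨y, hy⟩ := h2.exists_right_inv
    obtain ⟨z, hz⟩ := y.2
    have h3 : algebraMap T K (x * z) = algebraMap T K 1 := by
      rw [map_mul, map_one, hz]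
      exact congrArg Subtype.val hy
    have h4 := IsFractionRing.injective T K h3
    exact ((mem_maximalIdeal x).mp hx) (IsUnit.of_mul_eq_one _ h4)
  have hfu := hdom f hfm
  have hf0 : algebraMap T B f ≠ 0 := by rwa [Ne, map_eq_zero_iff _ hinj]
  have hfin : Module.Finite T B := finite_T (k := k) hres h1 hinj hfr hf hfm hfu
  have : IsNoetherianRing B := isNoetherian_of_tower T (isNoetherian_of_isNoetherianRing_of_finite T B)
  have hBf : ¬ IsField B := fun h => by
    obtain ⟨y, hy⟩ := h.mul_inv_cancel hf0
    exact hfu (IsUnit.of_mul_eq_one _ hy)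
  have : IsDiscreteValuationRing B := ((IsDiscreteValuationRing.TFAE B hBf).out 0 1).mpr
    (inferInstance : ValuationRing B)
  obtain ⟨t, ht⟩ := IsDiscreteValuationRing.exists_irreducible B
  have htm := ht.maximalIdeal_eq
  have ht0 : t ≠ 0 := ht.ne_zero
  have htu : ¬ IsUnit t := ht.not_isUnit
  -- `f` is a power of `t`
  obtain ⟨e, he⟩ := IsDiscreteValuationRing.associated_pow_irreducible hf0 ht
  have he1 : 1 ≤ e := by
    rcases Nat.eq_zero_or_pos e with rfl | h
    · exact absurd (he.symm.isUnit (by rw [pow_zero]; exact isUnit_one)) hfu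
    · exact h
  -- the residue field
  have hresB : ∀ x : B, ∃ c : k, t ∣ x - algebraMap k B c := by
    have hfk := finite_V (k := k) hres h1 hinj hfr hf
    let q : B →ₗ[k] ResidueField B := (IsScalarTower.toAlgHom k B (ResidueField B)).toLinearMap
    have hq : (Ideal.span {algebraMap T B f}).restrictScalars k ≤ LinearMap.ker q := by
      intro x hx
      rw [Submodule.restrictScalars_mem] at hx
      have h2 : x ∈ maximalIdeal B := by
        refine (Ideal.span_singleton_le_iff_mem _).mpr ?_ hx
        exact (mem_maximalIdeal _).mpr hfu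
      exact (residue_eq_zero_iff x).mpr h2
    have : Module.Finite k (ResidueField B) := by
      refine Module.Finite.of_surjective (Submodule.liftQ _ q hq) ?_
      intro y
      obtain ⟨x, rfl⟩ := residue_surjective y
      exact ⟨Submodule.Quotient.mk x, rfl⟩
    have hbij := IsAlgClosed.algebraMap_bijective_of_isIntegral (k := k) (K := ResidueField B)
    intro x
    obtain ⟨c, hc⟩ := hbij.2 (residue B x)
    refine ⟨c, ?_⟩
    rw [← Ideal.mem_span_singleton, ← htm, ← residue_eq_zero_iff, map_sub, ← hc, sub_eq_zero]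
    rfl
  have hsep : ∀ x : B, (∀ n, t ^ n ∣ x) → x = 0 := by
    intro x hx
    refine sep h1 hinj hfr hf hfm hfu fun n => ?_
    refine dvd_trans (pow_dvd_pow_of_dvd he.dvd n) ?_
    rw [← pow_mul]
    exact hx _
  obtain ⟨J, hJ⟩ := exists_equiv (k := k) ht0 htu hresB hsep
    (fct hfm hN he1 he.symm.dvd he.dvd)
  let i : T →ₐ[k] B := IsScalarTower.toAlgHom k T B
  have hi : ∀ x, i x = algebraMap T B x := fun _ => rfl
  refine ⟨(J : B →ₐ[k] PowerSeries k).comp i, ?_, ?_, ?_, ?_⟩
  · exact J.injective.comp hinj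
  · intro x hx
    refine hJ _ ?_
    rw [← Ideal.mem_span_singleton, ← htm]
    exact (mem_maximalIdeal _).mpr (hdom x hx)
  · intro g
    -- membership in `B` is integrality over `T`
    have hint : ∀ x : K, x ∈ B ↔ IsIntegral T x := by
      intro x
      constructor
      · intro hx
        exact (Algebra.IsIntegral.isIntegral (R := T) (⟨x, hx⟩ : B)).algebraMap (B := K)
      · intro hx
        obtain ⟨y, hy⟩ := (IsIntegrallyClosed.isIntegral_iff (R := B)).mp (hx.tower_top (A := B))
        rw [← hy]
        exact y.2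
    have key : ∀ (g : T ≃ₐ[k] T) (x : K), x ∈ B →
        IsFractionRing.ringEquivOfRingEquiv (K := K) (L := K) (g : T ≃+* T) x ∈ B := by
      intro g x hx
      rw [hint] at hx ⊢
      refine IsIntegral.map_of_comp_eq (g : T →+* T)
        (IsFractionRing.ringEquivOfRingEquiv (K := K) (L := K) (g : T ≃+* T) : K →+* K) ?_ hx
      ext y
      exact (IsFractionRing.ringEquivOfRingEquiv_algebraMap (K := K) (L := K) (g : T ≃+* T) y).symm
    let σ : K ≃+* K := IsFractionRing.ringEquivOfRingEquiv (g : T ≃+* T)
    have hσ : ∀ x ∈ B, σ x ∈ B := key g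
    have hσ' : ∀ x ∈ B, σ.symm x ∈ B := by
      intro x hx
      have := key g.symm x hx
      rwa [show ((g.symm : T ≃ₐ[k] T) : T ≃+* T) = (g : T ≃+* T).symm from rfl,
        ← IsFractionRing.ringEquivOfRingEquiv_symm] at this
    let τ : B ≃ₐ[k] B :=
      { toFun := fun x => ⟨σ x, hσ x x.2⟩
        invFun := fun x => ⟨σ.symm x, hσ' x x.2⟩
        left_inv := fun x => Subtype.ext (σ.symm_apply_apply _)
        right_inv := fun x => Subtype.ext (σ.apply_symm_apply _)
        map_mul' := fun x y => Subtype.ext (map_mul σ _ _)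
        map_add' := fun x y => Subtype.ext (map_add σ _ _)
        commutes' := fun c => Subtype.ext (by
          change σ (algebraMap T K (algebraMap k T c)) = algebraMap T K (algebraMap k T c)
          rw [IsFractionRing.ringEquivOfRingEquiv_algebraMap]
          congr 1
          exact g.commutes c) }
    refine ⟨(J.symm.trans τ).trans J, fun x => ?_⟩
    change J (τ (J.symm (J (i x)))) = J (i (g x))
    rw [J.symm_apply_apply]
    congr 1
    exact Subtype.ext (IsFractionRing.ringEquivOfRingEquiv_algebraMap (K := K) (L := K) (g : T ≃+* T) x)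
  · intro g₁ g₂ h
    ext1 y
    obtain ⟨v, rfl⟩ := J.surjective y
    obtain ⟨a, b, hb, hab⟩ := hfr v
    have h2 : ∀ g : PowerSeries k ≃ₐ[k] PowerSeries k,
        g (J (i b)) * g (J v) = g (J (i a)) := by
      intro g
      rw [← map_mul, ← map_mul, hi, hi, hab]
    have h3 := h2 g₁
    have h4 := h2 g₂
    have h5 : g₁ (J (i a)) = g₂ (J (i a)) := h a
    have h6 : g₁ (J (i b)) = g₂ (J (i b)) := h b
    rw [h5, ← h4, h6] at h3
    refine mul_left_cancel₀ ?_ h3
    rw [Ne, map_eq_zero_iff _ g₂.injective, map_eq_zero_iff _ J.injective, hi,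
      map_eq_zero_iff _ hinj]
    exact hb

end Pool.Agent.H98.CN
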