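import Mathlib

/-!
# CH-ALL, chapter CURVE, module NORM (helper98): one-dimensional complete local domains, part A

`T` is a noetherian local domain over a field `k` with residue field `k`, whose only nonzero prime
ideal is the maximal ideal.
-/

set_option autoImplicit false

open IsLocalRing

namespace Pool.Agent.H98.CN

universe u v w

variable {k : Type u} [Field k] {T : Type v} [CommRing T] [IsDomain T] [IsLocalRing T]
  [IsNoetherianRing T] [Algebra k T]

/-- a power of the maximal ideal is inside every nonzero principal ideal -/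
theorem exists_pow_le (h1 : ∀ P : Ideal T, P.IsPrime → P ≠ ⊥ → P = maximalIdeal T) {f : T}
    (hf : f ≠ 0) : ∃ N, maximalIdeal T ^ N ≤ Ideal.span {f} := by
  apply Ideal.exists_pow_le_of_le_radical_of_fg
  · rw [Ideal.radical_eq_sInf]
    refine le_sInf fun P hP => ?_
    refine (h1 P hP.2 ?_).ge
    rintro rfl
    exact hf (hP.1 (Ideal.mem_span_singleton_self f))
  · exact (isNoetherian_def.mp inferInstance) _

/-- `f`-adic completeness -/
theorem fc [IsAdicComplete (maximalIdeal T) T] {f : T} {N : ℕ} (hf : f ∈ maximalIdeal T)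
    (hN : maximalIdeal T ^ N ≤ Ideal.span {f}) (a : ℕ → T) :
    ∃ s, ∀ n, f ^ n ∣ s - ∑ j ∈ Finset.range n, f ^ j * a j := by
  have hd : ∀ m n, m ≤ n → f ^ m ∣ (∑ j ∈ Finset.range n, f ^ j * a j) -
      ∑ j ∈ Finset.range m, f ^ j * a j := by
    intro m n hmn
    rw [← Finset.sum_range_add_sum_Ico _ hmn, add_sub_cancel_left]
    refine Finset.dvd_sum fun j hj => ?_
    exact Dvd.dvd.mul_right (pow_dvd_pow f (Finset.mem_Ico.mp hj).1) _
  obtain ⟨s, hs⟩ := IsPrecomplete.prec (I := maximalIdeal T) (M := T) inferInstance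
    (f := fun n => ∑ j ∈ Finset.range n, f ^ j * a j) (by
      intro m n hmn
      rw [SModEq.sub_mem, smul_eq_mul, Ideal.mul_top, ← neg_sub]
      refine neg_mem ?_
      obtain ⟨c, hc⟩ := hd m n hmn
      rw [hc]
      exact Ideal.mul_mem_right _ _ (Ideal.pow_mem_pow hf m))
  refine ⟨s, fun n => ?_⟩
  have h1 := hs (N * n)
  rw [SModEq.sub_mem, smul_eq_mul, Ideal.mul_top, pow_mul] at h1
  have h2 := Ideal.pow_right_mono hN n h1
  rw [Ideal.span_singleton_pow, Ideal.mem_span_singleton] at h2
  rcases le_total n (N * n) with h | h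
  · have h3 := hd n (N * n) h
    have h4 : s - ∑ j ∈ Finset.range n, f ^ j * a j =
        ((∑ j ∈ Finset.range (N * n), f ^ j * a j) - ∑ j ∈ Finset.range n, f ^ j * a j) -
          ((∑ j ∈ Finset.range (N * n), f ^ j * a j) - s) := by ring
    rw [h4]
    exact dvd_sub h3 h2
  · have h5 : f ∣ 1 ∨ n = N * n := by
      rcases Nat.eq_zero_or_pos N with rfl | hN0
      · left
        rw [pow_zero, Ideal.one_eq_top, top_le_iff, Ideal.span_singleton_eq_top] at hN
        exact isUnit_iff_dvd_one.mp hN
      · right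
        exact le_antisymm (Nat.le_mul_of_pos_left n hN0) h
    rcases h5 with h5 | h5
    · exact absurd (isUnit_iff_dvd_one.mpr h5) ((mem_maximalIdeal f).mp hf)
    · rw [← h5] at h2
      rw [← neg_sub]
      exact h2.neg_right

private theorem exists_fin_aux (hres : ∀ x : T, ∃ c : k, x - algebraMap k T c ∈ maximalIdeal T)
    {n : ℕ} {S Y : Finset T} [DecidableEq T] (hY : Submodule.span T (Y : Set T) = maximalIdeal T ^ n)
    (b : T) (hb : b ∈ Submodule.span T (Y : Set T)) :
    b ∈ Submodule.span k ((S ∪ Y : Finset T) : Set T) ⊔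
      (maximalIdeal T ^ (n + 1)).restrictScalars k := by
  induction hb using Submodule.span_induction with
  | mem y hy =>
    exact Submodule.mem_sup_left (Submodule.subset_span (by simp [Finset.mem_coe.mp hy]))
  | zero => exact zero_mem _
  | add y z _ _ h1 h2 => exact add_mem h1 h2
  | smul t y hy h2 =>
    obtain ⟨c, hc⟩ := hres t
    have h3 : t • y = c • y + (t - algebraMap k T c) * y := by
      rw [Algebra.smul_def c y, smul_eq_mul]; ring
    rw [h3]
    refine add_mem (Submodule.smul_mem _ c h2) (Submodule.mem_sup_right ?_)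
    rw [Submodule.restrictScalars_mem, pow_succ']
    refine Ideal.mul_mem_mul hc ?_
    rw [← hY]
    exact hy

/-- `T` modulo a power of the maximal ideal is finite dimensional -/
theorem exists_fin (hres : ∀ x : T, ∃ c : k, x - algebraMap k T c ∈ maximalIdeal T) (n : ℕ) :
    ∃ S : Finset T, Submodule.span k (S : Set T) ⊔ (maximalIdeal T ^ n).restrictScalars k = ⊤ := by
  classical
  induction n with
  | zero =>
    refine ⟨∅, ?_⟩
    rw [pow_zero, Ideal.one_eq_top, eq_top_iff]
    intro x _
    exact Submodule.mem_sup_right (Submodule.mem_top (R := T))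
  | succ n ih =>
    obtain ⟨S, hS⟩ := ih
    obtain ⟨Y, hY⟩ := (isNoetherian_def.mp (inferInstance : IsNoetherian T T)) (maximalIdeal T ^ n)
    refine ⟨S ∪ Y, ?_⟩
    rw [eq_top_iff]
    intro x _
    have hx : x ∈ Submodule.span k (S : Set T) ⊔ (maximalIdeal T ^ n).restrictScalars k := by
      rw [hS]; exact Submodule.mem_top
    obtain ⟨a, ha, b, hb, rfl⟩ := Submodule.mem_sup.mp hx
    have hb' : b ∈ Submodule.span T (Y : Set T) := by rw [hY]; exact hb
    refine add_mem (Submodule.mem_sup_left (Submodule.span_mono (by simp) ha)) ?_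
    have key : ∀ b ∈ Submodule.span T (Y : Set T), b ∈ Submodule.span k ((S ∪ Y : Finset T) : Set T) ⊔
        (maximalIdeal T ^ (n + 1)).restrictScalars k := by
      intro b hb'
      exact exists_fin_aux hres hY b hb'
    exact key b hb'

/-- finite dimension of the quotients by nonzero principal ideals -/
theorem finite_quot (hres : ∀ x : T, ∃ c : k, x - algebraMap k T c ∈ maximalIdeal T)
    (h1 : ∀ P : Ideal T, P.IsPrime → P ≠ ⊥ → P = maximalIdeal T) {I : Ideal T} (hI : I ≠ ⊥) :
    Module.Finite k (T ⧸ I.restrictScalars k) := by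
  obtain ⟨f, hf, hf0⟩ := Submodule.exists_mem_ne_zero_of_ne_bot hI
  obtain ⟨N, hN⟩ := exists_pow_le h1 hf0
  classical
  obtain ⟨S, hS⟩ := exists_fin hres N
  refine ⟨⟨S.image (I.restrictScalars k).mkQ, ?_⟩⟩
  rw [Finset.coe_image, ← Submodule.map_span, eq_top_iff]
  intro x _
  obtain ⟨y, rfl⟩ := Submodule.mkQ_surjective _ x
  have hy : y ∈ Submodule.span k (S : Set T) ⊔ (maximalIdeal T ^ N).restrictScalars k := by
    rw [hS]; exact Submodule.mem_top
  obtain ⟨a, ha, b, hb, rfl⟩ := Submodule.mem_sup.mp hy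
  refine ⟨a, ha, ?_⟩
  rw [map_add, left_eq_add, Submodule.mkQ_apply, Submodule.Quotient.mk_eq_zero,
    Submodule.restrictScalars_mem]
  exact (Ideal.span_singleton_le_iff_mem _).mpr hf (hN hb)

/-- `dim I / f I = dim T / f T` -/
theorem card_le (hres : ∀ x : T, ∃ c : k, x - algebraMap k T c ∈ maximalIdeal T)
    (h1 : ∀ P : Ideal T, P.IsPrime → P ≠ ⊥ → P = maximalIdeal T) {I : Ideal T} (hI : I ≠ ⊥)
    {f : T} (hf : f ≠ 0) {n : ℕ} (z : Fin n → T) (hz : ∀ i, z i ∈ I)
    (hi : ∀ c : Fin n → k, (∃ x ∈ I, ∑ i, c i • z i = f * x) → ∀ i, c i = 0) :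
    n ≤ Module.finrank k (T ⧸ (Ideal.span {f}).restrictScalars k) := by
  classical
  let A : Submodule k T := I.restrictScalars k
  let μ : T →ₗ[k] T := LinearMap.mulLeft k f
  have hμ : Function.Injective μ := fun x y h => mul_left_cancel₀ hf h
  let B : Submodule k T := A.map μ
  have hBA : B ≤ A := by
    rintro _ ⟨x, hx, rfl⟩
    exact Ideal.mul_mem_left _ _ hx
  let C : Submodule k T := (Ideal.span {f}).restrictScalars k
  have hC : LinearMap.range μ = C := by
    ext x
    rw [LinearMap.mem_range, Submodule.restrictScalars_mem, Ideal.mem_span_singleton]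
    constructor
    · rintro ⟨y, rfl⟩
      exact ⟨y, rfl⟩
    · rintro ⟨y, rfl⟩
      exact ⟨y, rfl⟩
  have hBC : B ≤ C := by
    rw [← hC]
    rintro _ ⟨x, _, rfl⟩
    exact ⟨x, rfl⟩
  have hBI : B = ((Ideal.span {f} * I : Ideal T)).restrictScalars k := by
    ext x
    rw [Submodule.restrictScalars_mem, Ideal.mem_span_singleton_mul]
    constructor
    · rintro ⟨y, hy, rfl⟩
      exact ⟨y, hy, rfl⟩
    · rintro ⟨y, hy, rfl⟩
      exact ⟨y, hy, rfl⟩
  have hne : Ideal.span {f} * I ≠ ⊥ := by
    rw [Ne, Ideal.mul_eq_bot, not_or]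
    exact ⟨by simpa using hf, hI⟩
  have hQ : Module.Finite k (T ⧸ B) := by
    rw [hBI]; exact finite_quot hres h1 hne
  have hA' : Module.Finite k (T ⧸ A) := finite_quot hres h1 hI
  have hC' : Module.Finite k (T ⧸ C) := finite_quot hres h1 (by simpa using hf)
  -- the three dimension formulas
  have e1 : Module.finrank k ((T ⧸ B) ⧸ A.map B.mkQ) = Module.finrank k (T ⧸ A) :=
    (Submodule.quotientQuotientEquivQuotient B A hBA).finrank_eq
  have e2 : Module.finrank k ((T ⧸ B) ⧸ C.map B.mkQ) = Module.finrank k (T ⧸ C) :=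
    (Submodule.quotientQuotientEquivQuotient B C hBC).finrank_eq
  have e3 := Submodule.finrank_quotient_add_finrank (A.map B.mkQ)
  have e4 := Submodule.finrank_quotient_add_finrank (C.map B.mkQ)
  have e5 : Module.finrank k (C.map B.mkQ) = Module.finrank k (T ⧸ A) := by
    have hk : LinearMap.ker (B.mkQ.comp μ) = A := by
      ext x
      rw [LinearMap.mem_ker, LinearMap.comp_apply, Submodule.mkQ_apply,
        Submodule.Quotient.mk_eq_zero]
      constructor
      · rintro ⟨y, hy, hxy⟩
        rwa [← hμ hxy]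
      · intro hx
        exact ⟨x, hx, rfl⟩
    have hr : LinearMap.range (B.mkQ.comp μ) = C.map B.mkQ := by
      rw [LinearMap.range_comp, hC]
    rw [← hr, ← hk]
    exact ((B.mkQ.comp μ).quotKerEquivRange.finrank_eq).symm
  have e6 : Module.finrank k (A.map B.mkQ) = Module.finrank k (T ⧸ C) := by omega
  change n ≤ Module.finrank k (T ⧸ C)
  rw [← e6]
  let y : Fin n → A.map B.mkQ := fun i => ⟨B.mkQ (z i), ⟨z i, hz i, rfl⟩⟩
  have hy : LinearIndependent k y := by
    rw [Fintype.linearIndependent_iff]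
    intro c hc
    apply hi c
    have h2 := congrArg Subtype.val hc
    rw [AddSubmonoidClass.coe_finsetSum] at h2
    simp only [SetLike.val_smul, y, ZeroMemClass.coe_zero, ← map_smul] at h2
    rw [← map_sum, Submodule.mkQ_apply, Submodule.Quotient.mk_eq_zero] at h2
    obtain ⟨x, hx, hx2⟩ := h2
    exact ⟨x, hx, hx2.symm⟩
  have := hy.fintype_card_le_finrank
  rwa [Fintype.card_fin] at this

end Pool.Agent.H98.CN
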