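import Pool.Agent.H98.CN.A

/-!
# CH-ALL, chapter CURVE, module NORM (helper98), part B: a dominating overring is finite

`V` is a domain over `T` inside the fraction field of `T` which dominates `T`.
-/

set_option autoImplicit false

open IsLocalRing

namespace Pool.Agent.H98.CN

universe u v w

variable {k : Type u} [Field k] {T : Type v} [CommRing T] [IsDomain T] [IsLocalRing T]
  [IsNoetherianRing T] [Algebra k T] {V : Type w} [CommRing V] [IsDomain V] [Algebra k V]
  [Algebra T V] [IsScalarTower k T V]

/-- common denominators -/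
theorem common
    (hfr : ∀ v : V, ∃ a b : T, b ≠ 0 ∧ algebraMap T V b * v = algebraMap T V a) {ι : Type*}
    [Finite ι] (y : ι → V) : ∃ (d : T) (z : ι → T), d ≠ 0 ∧
      ∀ i, algebraMap T V d * y i = algebraMap T V (z i) := by
  classical
  cases nonempty_fintype ι
  choose a b hb hab using hfr
  refine ⟨∏ i, b (y i), fun i => (∏ j ∈ Finset.univ.erase i, b (y j)) * a (y i), ?_, fun i => ?_⟩
  · exact Finset.prod_ne_zero_iff.mpr fun i _ => hb _
  · rw [map_mul, ← hab, ← Finset.prod_erase_mul _ _ (Finset.mem_univ i), map_mul, mul_assoc]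

/-- the rank of `V / f V` is at most the dimension of `T / f T` -/
theorem finite_V (hres : ∀ x : T, ∃ c : k, x - algebraMap k T c ∈ maximalIdeal T)
    (h1 : ∀ P : Ideal T, P.IsPrime → P ≠ ⊥ → P = maximalIdeal T)
    (hinj : Function.Injective (algebraMap T V))
    (hfr : ∀ v : V, ∃ a b : T, b ≠ 0 ∧ algebraMap T V b * v = algebraMap T V a)
    {f : T} (hf : f ≠ 0) :
    Module.Finite k (V ⧸ (Ideal.span {algebraMap T V f}).restrictScalars k) := by
  classical
  set L := Module.finrank k (T ⧸ (Ideal.span {f}).restrictScalars k) with hL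
  rw [← Module.rank_lt_aleph0_iff]
  refine lt_of_le_of_lt (b := (L : Cardinal)) ?_ (Cardinal.natCast_lt_aleph0)
  by_contra hlt
  rw [not_le] at hlt
  have h2 : ((L + 1 : ℕ) : Cardinal) ≤
      Module.rank k (V ⧸ (Ideal.span {algebraMap T V f}).restrictScalars k) := by
    rw [Cardinal.nat_succ]
    exact Order.succ_le_of_lt hlt
  obtain ⟨s, hs, hs2⟩ := le_rank_iff_exists_linearIndependent_finset.mp h2
  let e := (Finset.equivFinOfCardEq hs).symm
  choose y hy using fun i : Fin (L + 1) => Submodule.mkQ_surjective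
    ((Ideal.span {algebraMap T V f}).restrictScalars k) (e i).1
  obtain ⟨d, z, hd, hz⟩ := common hfr y
  -- the ideal
  let I : Ideal T := Ideal.span (Set.range z ∪ {d})
  have hI : ∀ x ∈ I, ∃ w : V, algebraMap T V x = algebraMap T V d * w := by
    intro x hx
    induction hx using Submodule.span_induction with
    | mem x hx =>
      rcases hx with ⟨i, rfl⟩ | hx
      · exact ⟨y i, (hz i).symm⟩
      · rw [Set.mem_singleton_iff] at hx
        exact ⟨1, by rw [hx, mul_one]⟩
    | zero => exact ⟨0, by rw [map_zero, mul_zero]⟩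
    | add x x' _ _ h h' =>
      obtain ⟨w, hw⟩ := h
      obtain ⟨w', hw'⟩ := h'
      exact ⟨w + w', by rw [map_add, hw, hw', mul_add]⟩
    | smul t x _ h =>
      obtain ⟨w, hw⟩ := h
      exact ⟨algebraMap T V t * w, by rw [smul_eq_mul, map_mul, hw]; ring⟩
  have hdI : d ∈ I := Ideal.subset_span (Or.inr rfl)
  have hI0 : I ≠ ⊥ := fun h => hd (by rw [h] at hdI; exact hdI)
  have h3 := card_le (k := k) hres h1 hI0 hf z (fun i => Ideal.subset_span (Or.inl ⟨i, rfl⟩)) (by
    rintro c ⟨x, hx, hxc⟩
    obtain ⟨w, hw⟩ := hI x hx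
    have h4 : ∑ i, c i • y i = algebraMap T V f * w := by
      have h5 : algebraMap T V d * ∑ i, c i • y i = algebraMap T V d * (algebraMap T V f * w) := by
        rw [Finset.mul_sum]
        calc ∑ i, algebraMap T V d * c i • y i = ∑ i, algebraMap T V (c i • z i) := by
              refine Finset.sum_congr rfl fun i _ => ?_
              rw [mul_smul_comm, hz, Algebra.smul_def, Algebra.smul_def, map_mul,
                IsScalarTower.algebraMap_apply k T V]
          _ = algebraMap T V (f * x) := by rw [← map_sum, hxc]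
          _ = _ := by rw [map_mul, hw]; ring
      refine mul_left_cancel₀ ?_ h5
      rwa [Ne, map_eq_zero_iff _ hinj]
    have h6 : ∑ i, c i • (e i).1 = 0 := by
      calc ∑ i, c i • (e i).1 = ((Ideal.span {algebraMap T V f}).restrictScalars k).mkQ
            (∑ i, c i • y i) := by
            rw [map_sum]
            refine Finset.sum_congr rfl fun i _ => ?_
            rw [map_smul, hy]
        _ = 0 := by
            rw [h4, Submodule.mkQ_apply, Submodule.Quotient.mk_eq_zero,
              Submodule.restrictScalars_mem]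
            exact Ideal.mul_mem_right _ _ (Ideal.mem_span_singleton_self _)
    have h7 : LinearIndependent k (fun i => (e i).1) := hs2.comp e e.injective
    exact Fintype.linearIndependent_iff.mp h7 c h6)
  rw [← hL] at h3
  omega

/-- `V` is `f`-adically separated -/
theorem sep (h1 : ∀ P : Ideal T, P.IsPrime → P ≠ ⊥ → P = maximalIdeal T)
    (hinj : Function.Injective (algebraMap T V))
    (hfr : ∀ v : V, ∃ a b : T, b ≠ 0 ∧ algebraMap T V b * v = algebraMap T V a)
    {f : T} (hf : f ≠ 0) (hfm : f ∈ maximalIdeal T) (hfu : ¬ IsUnit (algebraMap T V f)) {x : V}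
    (hx : ∀ n, algebraMap T V f ^ n ∣ x) : x = 0 := by
  by_contra hx0
  obtain ⟨a, b, hb, hab⟩ := hfr x
  have ha : a ≠ 0 := by
    rintro rfl
    rw [map_zero, mul_eq_zero, map_eq_zero_iff _ hinj] at hab
    rcases hab with h | h
    · exact hb h
    · exact hx0 h
  obtain ⟨N, hN⟩ := exists_pow_le h1 ha
  obtain ⟨c, hc⟩ := Ideal.mem_span_singleton.mp (hN (Ideal.pow_mem_pow hfm N))
  obtain ⟨w, hw⟩ := hx (N + 1)
  have h2 : algebraMap T V f ^ N * 1 =
      algebraMap T V f ^ N * (algebraMap T V f * (algebraMap T V b * w * algebraMap T V c)) := by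
    calc algebraMap T V f ^ N * 1 = algebraMap T V (f ^ N) := by rw [mul_one, map_pow]
      _ = algebraMap T V b * x * algebraMap T V c := by rw [hc, map_mul, hab]
      _ = _ := by rw [hw]; ring
  have h3 := mul_left_cancel₀ (pow_ne_zero N (by rwa [Ne, map_eq_zero_iff _ hinj])) h2
  exact hfu (IsUnit.of_mul_eq_one _ h3.symm)

/-- `V` is a finite `T`-module -/
theorem finite_T [IsAdicComplete (maximalIdeal T) T]
    (hres : ∀ x : T, ∃ c : k, x - algebraMap k T c ∈ maximalIdeal T)
    (h1 : ∀ P : Ideal T, P.IsPrime → P ≠ ⊥ → P = maximalIdeal T)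
    (hinj : Function.Injective (algebraMap T V))
    (hfr : ∀ v : V, ∃ a b : T, b ≠ 0 ∧ algebraMap T V b * v = algebraMap T V a)
    {f : T} (hf : f ≠ 0) (hfm : f ∈ maximalIdeal T) (hfu : ¬ IsUnit (algebraMap T V f)) :
    Module.Finite T V := by
  classical
  obtain ⟨N, hN⟩ := exists_pow_le h1 hf
  have hfin := finite_V (k := k) hres h1 hinj hfr hf
  obtain ⟨S, hS⟩ := hfin.fg_top
  choose r hr using Submodule.mkQ_surjective ((Ideal.span {algebraMap T V f}).restrictScalars k)
  -- every element is a `k`-combination of the `r q`, `q ∈ S`, modulo `f`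
  have hst : ∀ x : V, ∃ (c : V ⧸ (Ideal.span {algebraMap T V f}).restrictScalars k → k) (x' : V),
      x = ∑ q ∈ S, c q • r q + algebraMap T V f * x' := by
    intro x
    have hx : ((Ideal.span {algebraMap T V f}).restrictScalars k).mkQ x ∈
        Submodule.span k (S : Set _) := by rw [hS]; exact Submodule.mem_top
    obtain ⟨c, hc⟩ := Submodule.mem_span_finset.mp hx
    refine ⟨c, ?_⟩
    have h2 : x - ∑ q ∈ S, c q • r q ∈ Ideal.span {algebraMap T V f} := by
      rw [← Submodule.restrictScalars_mem k, ← Submodule.Quotient.mk_eq_zero,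
        ← Submodule.mkQ_apply, map_sub, map_sum, ← hc.2, sub_eq_zero]
      refine Finset.sum_congr rfl fun q _ => ?_
      rw [map_smul, hr]
    obtain ⟨x', hx'⟩ := Ideal.mem_span_singleton.mp h2
    exact ⟨x', by rw [← hx']; ring⟩
  choose c nx hnx using hst
  refine ⟨⟨S.image r, ?_⟩⟩
  rw [eq_top_iff]
  intro x _
  -- the coefficients
  have hstep : ∀ n, x = ∑ q ∈ S, (∑ j ∈ Finset.range n, algebraMap T V f ^ j *
      algebraMap k V (c (nx^[j] x) q)) * r q + algebraMap T V f ^ n * nx^[n] x := by
    intro n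
    induction n with
    | zero => simp
    | succ n ih =>
      have h3 : ∑ q ∈ S, (∑ j ∈ Finset.range (n + 1), algebraMap T V f ^ j *
          algebraMap k V (c (nx^[j] x) q)) * r q =
          ∑ q ∈ S, (∑ j ∈ Finset.range n, algebraMap T V f ^ j *
          algebraMap k V (c (nx^[j] x) q)) * r q +
          algebraMap T V f ^ n * ∑ q ∈ S, c (nx^[n] x) q • r q := by
        rw [Finset.mul_sum, ← Finset.sum_add_distrib]
        refine Finset.sum_congr rfl fun q _ => ?_
        rw [Finset.sum_range_succ, Algebra.smul_def]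
        ring
      rw [h3, Function.iterate_succ_apply', pow_succ]
      conv_lhs => rw [ih]
      have h4 := hnx (nx^[n] x)
      linear_combination algebraMap T V f ^ n * h4
  choose t ht using fun q => fc hfm hN (fun j => algebraMap k T (c (nx^[j] x) q))
  have hx : x = ∑ q ∈ S, t q • r q := by
    rw [← sub_eq_zero]
    refine sep h1 hinj hfr hf hfm hfu fun n => ?_
    have h5 : x - ∑ q ∈ S, t q • r q = algebraMap T V f ^ n * nx^[n] x -
        ∑ q ∈ S, algebraMap T V (t q - ∑ j ∈ Finset.range n, f ^ j *
          algebraMap k T (c (nx^[j] x) q)) * r q := by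
      conv_lhs => rw [hstep n]
      simp only [map_sub, map_sum, map_mul, map_pow, ← IsScalarTower.algebraMap_apply k T V,
        sub_mul, Finset.sum_sub_distrib, Algebra.smul_def]
      ring
    rw [h5]
    refine dvd_sub (Dvd.intro _ rfl) (Finset.dvd_sum fun q _ => Dvd.dvd.mul_right ?_ _)
    rw [← map_pow]
    exact map_dvd (algebraMap T V) (ht q n)
  rw [hx]
  exact Submodule.sum_mem _ fun q hq => Submodule.smul_mem _ _
    (Submodule.subset_span (Finset.mem_coe.mpr (Finset.mem_image_of_mem r hq)))

end Pool.Agent.H98.CN
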