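import Pool.Agent.H98.CN.B

/-!
# CH-ALL, chapter CURVE, module NORM (helper98), part C: complete discrete valuation rings with
residue field `k` are power series rings
-/

set_option autoImplicit false

open IsLocalRing

namespace Pool.Agent.H98.CN

universe u v w

section lim

variable {T : Type v} [CommRing T] [IsDomain T] [IsLocalRing T]
  [IsNoetherianRing T] {V : Type w} [CommRing V] [Algebra T V]

/-- a finite module over a complete ring is complete -/
theorem fcV [IsAdicComplete (maximalIdeal T) T] [Module.Finite T V] {f : T} {N : ℕ}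
    (hf : f ∈ maximalIdeal T) (hN : maximalIdeal T ^ N ≤ Ideal.span {f}) (S : ℕ → V)
    (hS : ∀ n, algebraMap T V f ^ n ∣ S (n + 1) - S n) :
    ∃ s, ∀ n, algebraMap T V f ^ n ∣ s - S n := by
  classical
  obtain ⟨Y, hY⟩ := (‹Module.Finite T V›).fg_top
  choose a ha using hS
  have h2 : ∀ n, ∃ c : V → T, a n = ∑ q ∈ Y, c q • q := by
    intro n
    have h3 : a n ∈ Submodule.span T (Y : Set V) := by rw [hY]; exact Submodule.mem_top
    obtain ⟨c, hc⟩ := Submodule.mem_span_finset.mp h3
    exact ⟨c, hc.2.symm⟩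
  choose c hc using h2
  choose t ht using fun q => fc hf hN (fun j => c j q)
  have hsum : ∀ n, S n = S 0 + ∑ j ∈ Finset.range n, algebraMap T V f ^ j * a j := by
    intro n
    induction n with
    | zero => simp
    | succ n ih =>
      rw [Finset.sum_range_succ, ← add_assoc, ← ih, ← ha n]
      ring
  refine ⟨S 0 + ∑ q ∈ Y, t q • q, fun n => ?_⟩
  have h5 : S 0 + ∑ q ∈ Y, t q • q - S n =
      ∑ q ∈ Y, algebraMap T V (t q - ∑ j ∈ Finset.range n, f ^ j * c j q) * q := by
    rw [hsum n]
    have h6 : ∑ j ∈ Finset.range n, algebraMap T V f ^ j * a j =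
        ∑ q ∈ Y, algebraMap T V (∑ j ∈ Finset.range n, f ^ j * c j q) * q := by
      simp only [map_sum, map_mul, map_pow, Finset.sum_mul]
      rw [Finset.sum_comm]
      refine Finset.sum_congr rfl fun j _ => ?_
      rw [hc j, Finset.mul_sum]
      refine Finset.sum_congr rfl fun q _ => ?_
      rw [Algebra.smul_def, mul_assoc]
    rw [h6]
    simp only [map_sub, sub_mul, Finset.sum_sub_distrib, Algebra.smul_def]
    ring
  rw [h5]
  refine Finset.dvd_sum fun q _ => Dvd.dvd.mul_right ?_ _
  rw [← map_pow]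
  exact map_dvd (algebraMap T V) (ht q n)

/-- the same for a root of `f` -/
theorem fct [IsAdicComplete (maximalIdeal T) T] [Module.Finite T V] {f : T} {N : ℕ}
    (hf : f ∈ maximalIdeal T) (hN : maximalIdeal T ^ N ≤ Ideal.span {f}) {t : V} {e : ℕ}
    (he : 1 ≤ e) (h1 : t ^ e ∣ algebraMap T V f) (h2 : algebraMap T V f ∣ t ^ e) (S : ℕ → V)
    (hS : ∀ n, t ^ n ∣ S (n + 1) - S n) :
    ∃ s, ∀ n, t ^ n ∣ s - S n := by
  have h3 : ∀ m n, m ≤ n → t ^ m ∣ S n - S m := by
    intro m n hmn
    induction n, hmn using Nat.le_induction with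
    | base => simp
    | succ n hn ih =>
      have : S (n + 1) - S m = (S (n + 1) - S n) + (S n - S m) := by ring
      rw [this]
      exact dvd_add ((pow_dvd_pow t hn).trans (hS n)) ih
  obtain ⟨s, hs⟩ := fcV hf hN (fun n => S (e * n)) (fun n => by
    refine dvd_trans (pow_dvd_pow_of_dvd h2 n) ?_
    rw [← pow_mul]
    exact h3 _ _ (Nat.mul_le_mul_left e (Nat.le_succ n)))
  refine ⟨s, fun n => ?_⟩
  have h4 : s - S n = (s - S (e * n)) + (S (e * n) - S n) := by ring
  rw [h4]
  refine dvd_add ?_ (h3 _ _ (Nat.le_mul_of_pos_left n he))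
  refine dvd_trans ?_ (hs n)
  refine dvd_trans ?_ (pow_dvd_pow_of_dvd h1 n)
  rw [← pow_mul]
  exact pow_dvd_pow t (Nat.le_mul_of_pos_left n he)

end lim

section exp

variable {k : Type u} [Field k] {V : Type w} [CommRing V] [IsDomain V] [Algebra k V]

/-- `x` is the value of `P` at `t` -/
def Rel (t : V) (x : V) (P : PowerSeries k) : Prop :=
  ∀ n, t ^ n ∣ x - Polynomial.aeval t (PowerSeries.trunc n P)

omit [IsDomain V] in
theorem Rel.add {t x y : V} {P Q : PowerSeries k} (h : Rel t x P) (h' : Rel t y Q) :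
    Rel t (x + y) (P + Q) := by
  intro n
  rw [map_add, map_add, add_sub_add_comm]
  exact dvd_add (h n) (h' n)

omit [IsDomain V] in
theorem Rel.mul {t x y : V} {P Q : PowerSeries k} (h : Rel t x P) (h' : Rel t y Q) :
    Rel t (x * y) (P * Q) := by
  intro n
  obtain ⟨W, hW⟩ : ∃ W, W = PowerSeries.trunc n P * PowerSeries.trunc n Q := ⟨_, rfl⟩
  have h1 : PowerSeries.trunc n (W : PowerSeries k) = PowerSeries.trunc n (P * Q) := by
    rw [hW, Polynomial.coe_mul]
    exact PowerSeries.trunc_trunc_mul_trunc P Q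
  have h2 : (Polynomial.X : Polynomial k) ^ n ∣ W - PowerSeries.trunc n (P * Q) := by
    rw [Polynomial.X_pow_dvd_iff]
    intro d hd
    rw [← h1, Polynomial.coeff_sub, PowerSeries.coeff_trunc, if_pos hd, Polynomial.coeff_coe,
      sub_self]
  have h3 := map_dvd (Polynomial.aeval t) h2
  rw [map_pow, Polynomial.aeval_X, map_sub, hW, map_mul] at h3
  have h4 : x * y - Polynomial.aeval t (PowerSeries.trunc n (P * Q)) =
      (x - Polynomial.aeval t (PowerSeries.trunc n P)) * y +
      Polynomial.aeval t (PowerSeries.trunc n P) *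
        (y - Polynomial.aeval t (PowerSeries.trunc n Q)) +
      (Polynomial.aeval t (PowerSeries.trunc n P) * Polynomial.aeval t (PowerSeries.trunc n Q) -
        Polynomial.aeval t (PowerSeries.trunc n (P * Q))) := by ring
  rw [h4]
  exact dvd_add (dvd_add ((h n).mul_right _) ((h' n).mul_left _)) h3

omit [IsDomain V] in
theorem Rel.alg (t : V) (c : k) : Rel t (algebraMap k V c) (PowerSeries.C c) := by
  intro n
  rcases n with _ | n
  · simp
  · rw [PowerSeries.trunc_C, Polynomial.aeval_C, sub_self]
    exact dvd_zero _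

theorem aeval_trunc (t : V) (P : PowerSeries k) (n : ℕ) :
    Polynomial.aeval t (PowerSeries.trunc n P) =
      ∑ j ∈ Finset.range n, t ^ j * algebraMap k V (PowerSeries.coeff j P) := by
  rw [PowerSeries.trunc_apply, map_sum, Nat.Ico_zero_eq_range]
  refine Finset.sum_congr rfl fun j _ => ?_
  rw [Polynomial.aeval_monomial, mul_comm]

/-- uniqueness of the expansion -/
theorem Rel.unique {t : V} (ht0 : t ≠ 0) (htu : ¬ IsUnit t) {x : V} {P Q : PowerSeries k}
    (h : Rel t x P) (h' : Rel t x Q) : P = Q := by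
  ext n
  induction n using Nat.strong_induction_on with
  | _ n ih =>
    by_contra hne
    have h1 : t ^ (n + 1) ∣ t ^ n * algebraMap k V (PowerSeries.coeff n P - PowerSeries.coeff n Q) := by
      have h2 := dvd_sub (h' (n + 1)) (h (n + 1))
      rw [aeval_trunc, aeval_trunc, Finset.sum_range_succ, Finset.sum_range_succ] at h2
      have h3 : ∑ j ∈ Finset.range n, t ^ j * algebraMap k V (PowerSeries.coeff j P) =
          ∑ j ∈ Finset.range n, t ^ j * algebraMap k V (PowerSeries.coeff j Q) :=
        Finset.sum_congr rfl fun j hj => by rw [ih j (Finset.mem_range.mp hj)]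
      rw [h3] at h2
      rw [map_sub]
      refine dvd_trans h2 (dvd_of_eq ?_)
      ring
    rw [pow_succ, mul_dvd_mul_iff_left (pow_ne_zero n ht0)] at h1
    refine htu (isUnit_of_dvd_unit h1 ?_)
    exact (IsUnit.mk0 _ (sub_ne_zero.mpr hne)).map (algebraMap k V)

/-- complete discrete valuation rings -/
theorem exists_equiv {t : V} (ht0 : t ≠ 0) (htu : ¬ IsUnit t)
    (hres : ∀ x : V, ∃ c : k, t ∣ x - algebraMap k V c) (hsep : ∀ x : V, (∀ n, t ^ n ∣ x) → x = 0)
    (hcomp : ∀ S : ℕ → V, (∀ n, t ^ n ∣ S (n + 1) - S n) → ∃ s, ∀ n, t ^ n ∣ s - S n) :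
    ∃ J : V ≃ₐ[k] PowerSeries k, ∀ x : V, t ∣ x → (PowerSeries.X : PowerSeries k) ∣ J x := by
  classical
  have hex : ∀ x : V, ∃ P : PowerSeries k, Rel t x P := by
    intro x
    choose c hc using hres
    choose nx hnx using hc
    refine ⟨PowerSeries.mk fun n => c (nx^[n] x), fun n => ?_⟩
    rw [aeval_trunc]
    simp only [PowerSeries.coeff_mk]
    suffices h : x - ∑ j ∈ Finset.range n, t ^ j * algebraMap k V (c (nx^[j] x)) =
        t ^ n * nx^[n] x by
      rw [h]; exact Dvd.intro _ rfl
    induction n with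
    | zero => simp
    | succ n ih =>
      rw [Finset.sum_range_succ, Function.iterate_succ_apply']
      have h1 := hnx (nx^[n] x)
      linear_combination ih + t ^ n * h1
  have hex' : ∀ P : PowerSeries k, ∃ x : V, Rel t x P := by
    intro P
    refine hcomp (fun n => Polynomial.aeval t (PowerSeries.trunc n P)) fun n => ?_
    rw [aeval_trunc, aeval_trunc, Finset.sum_range_succ, add_sub_cancel_left]
    exact Dvd.intro _ rfl
  choose J hJ using hex
  have hJu : ∀ {x P}, Rel t x P → J x = P := fun h => (hJ _).unique ht0 htu h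
  have hxu : ∀ {x y : V} {P : PowerSeries k}, Rel t x P → Rel t y P → x = y := by
    intro x y P h h'
    rw [← sub_eq_zero]
    refine hsep _ fun n => ?_
    have h2 := dvd_sub (h n) (h' n)
    rwa [sub_sub_sub_cancel_right] at h2
  let F : V →ₐ[k] PowerSeries k :=
    { toFun := J
      map_one' := by
        apply hJu
        have := Rel.alg (k := k) t 1
        rwa [map_one, map_one] at this
      map_mul' := fun x y => hJu ((hJ x).mul (hJ y))
      map_zero' := by
        apply hJu
        have := Rel.alg (k := k) t 0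
        rwa [map_zero, map_zero] at this
      map_add' := fun x y => hJu ((hJ x).add (hJ y))
      commutes' := fun c => hJu (Rel.alg t c) }
  refine ⟨AlgEquiv.ofBijective F ⟨fun x y h => ?_, fun P => ?_⟩, fun x hx => ?_⟩
  · have h1 := hJ x
    have h2 := hJ y
    rw [show J x = J y from h] at h1
    exact hxu h1 h2
  · obtain ⟨x, hx⟩ := hex' P
    exact ⟨x, hJu hx⟩
  · change (PowerSeries.X : PowerSeries k) ∣ J x
    rw [PowerSeries.X_dvd_iff, ← PowerSeries.coeff_zero_eq_constantCoeff_apply]
    by_contra hne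
    have h1 := hJ x 1
    rw [aeval_trunc, Finset.sum_range_one, pow_zero, one_mul, pow_one] at h1
    have h2 := dvd_sub hx h1
    rw [sub_sub_cancel] at h2
    refine htu (isUnit_of_dvd_unit h2 ?_)
    exact (IsUnit.mk0 _ hne).map (algebraMap k V)

end exp

end Pool.Agent.H98.CN
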